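import Pool.Agent.Helper584.FS.QuadLemmas
import Pool.Agent.Helper584.FS.Tetra

set_option autoImplicit false

open MeasureTheory Set

namespace Pool.Agent.Results.MP_7fdcdd_gt.QuadPrisms

open Pool.Agent.Helper584.FS

/-- The kernel `K(P)`, the intersection of all polyhedra of the sequence. -/
def kernel (P : Set E) : Set E := ⋂ k : ℕ, seq P k

/-- Volume. -/
noncomputable def vol (S : Set E) : ℝ := (volume S).toReal

/-- `ρ(P) = vol K(P) / vol P`. -/
noncomputable def rho (P : Set E) : ℝ := vol (kernel P) / vol P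

theorem seq_succ' (P : Set E) (k : ℕ) : seq P (k + 1) = seq (next P) k := by
  induction k with
  | zero => rfl
  | succ k ih =>
    show next (seq P (k + 1)) = next (seq (next P) k)
    rw [ih]

theorem seq_add (P : Set E) (j k : ℕ) : seq P (j + k) = seq (seq P j) k := by
  induction k with
  | zero => rfl
  | succ k ih =>
    show next (seq P (j + k)) = next (seq (seq P j) k)
    rw [ih]

theorem exists_CP (P : Set E) (hP : ∃ V : Finset E, P = convexHull ℝ (V : Set E)) :
    ∃ V : Finset E, P = convexHull ℝ (V : Set E) ∧ CP V := by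
  obtain ⟨W, rfl⟩ := hP
  obtain ⟨V, h1, h2⟩ := min_vertices W
  exact ⟨V, h1.symm, h2⟩

theorem next_polytope (P : Set E) (hP : ∃ V : Finset E, P = convexHull ℝ (V : Set E)) :
    ∃ V : Finset E, next P = convexHull ℝ (V : Set E) := by
  obtain ⟨V, rfl⟩ := hP
  refine ⟨(edge_mid_finite V).toFinset, ?_⟩
  rw [Set.Finite.coe_toFinset]
  rfl

theorem seq_polytope (P : Set E) (hP : ∃ V : Finset E, P = convexHull ℝ (V : Set E)) (k : ℕ) :
    ∃ V : Finset E, seq P k = convexHull ℝ (V : Set E) := by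
  induction k with
  | zero => exact hP
  | succ k ih => exact next_polytope _ ih

theorem next_sub (P : Set E) (hP : ∃ V : Finset E, P = convexHull ℝ (V : Set E)) :
    next P ⊆ P := by
  obtain ⟨V, rfl⟩ := hP
  refine convexHull_min ?_ (convex_convexHull ℝ _)
  rintro m ⟨v, w, -, hvw, rfl⟩
  exact hvw.1 (midpoint_mem_segment v w)

theorem seq_anti (P : Set E) (hP : ∃ V : Finset E, P = convexHull ℝ (V : Set E)) (j k : ℕ) :
    seq P (j + k) ⊆ seq P j := by
  induction k with
  | zero => exact subset_rfl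
  | succ k ih => exact (next_sub _ (seq_polytope P hP (j + k))).trans ih

theorem seq_face (P F : Set E) (hP : ∃ V : Finset E, P = convexHull ℝ (V : Set E))
    (hF : IsExtreme ℝ P F) (hFc : Convex ℝ F) (k : ℕ) :
    IsExtreme ℝ (seq P k) (seq F k) ∧ Convex ℝ (seq F k) := by
  induction k with
  | zero => exact ⟨hF, hFc⟩
  | succ k ih =>
    exact ⟨(next_face _ _ (seq_polytope P hP k) ih.1 ih.2).2, convex_convexHull ℝ _⟩

theorem mem_kernel_of_face (P F : Set E) (hP : ∃ V : Finset E, P = convexHull ℝ (V : Set E))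
    (j : ℕ) (hF : IsExtreme ℝ (seq P j) F) (hFc : Convex ℝ F) (x : E) (hx : ∀ k, x ∈ seq F k) :
    x ∈ kernel P := by
  refine mem_iInter.2 (fun k => ?_)
  rcases le_total j k with h | h
  · obtain ⟨l, rfl⟩ := Nat.exists_eq_add_of_le h
    rw [seq_add]
    exact (seq_face _ _ (seq_polytope P hP j) hF hFc l).1.1 (hx l)
  · obtain ⟨l, rfl⟩ := Nat.exists_eq_add_of_le h
    exact seq_anti P hP k l (hF.1 (hx 0))

theorem kernel_convex (P : Set E) (hP : ∃ V : Finset E, P = convexHull ℝ (V : Set E)) :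
    Convex ℝ (kernel P) := by
  refine convex_iInter (fun k => ?_)
  obtain ⟨V, hV⟩ := seq_polytope P hP k
  rw [hV]
  exact convex_convexHull ℝ _


/-- the prism -/
def PP (o d1 d2 e : E) (s t : ℝ) : Set E := convexHull ℝ ((V8 o d1 d2 e s t : Finset E) : Set E)

theorem PP_poly (o d1 d2 e : E) (s t : ℝ) :
    ∃ V : Finset E, PP o d1 d2 e s t = convexHull ℝ (V : Set E) := ⟨_, rfl⟩

theorem corner0 (o d1 d2 e : E) (s t : ℝ) (h : LinearIndependent ℝ ![d1, d2, e])
    (hs : 0 < s) (hs1 : s < 1) (ht : 0 < t) (ht1 : t < 1) :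
    o + (2 * s / 3) • d1 + ((2 * t - 1) / 6) • d2 + (1 / 6 : ℝ) • e ∈
      kernel (PP o d1 d2 e s t) := by
  have h1 := qp_corner o d1 d2 e s t h hs hs1 ht ht1
  have h2 : seq (PP o d1 d2 e s t) 1 = M (V8 o d1 d2 e s t) := by
    show next (PP o d1 d2 e s t) = _
    exact next_eq _ (qp_CP o d1 d2 e s t h hs hs1 ht ht1)
  rw [← h2] at h1
  refine mem_kernel_of_face _ _ (PP_poly _ _ _ _ _ _) 1 h1 (convex_convexHull ℝ _) _ ?_
  intro k
  have h3 := tri_centroid _ _ _ (qp_aff o d1 d2 e s t h hs hs1 ht ht1) k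
  convert h3 using 1
  simp only [midpoint_eq_smul_add, bp, Matrix.cons_val_zero, Matrix.cons_val_one, Matrix.cons_val]
  norm_num
  module

theorem li_flip1 (d1 d2 e : E) (h : LinearIndependent ℝ ![d1, d2, e]) :
    LinearIndependent ℝ ![-d1, d2, e] := by
  have h2 := h.units_smul ![-1, 1, 1]
  convert h2 using 1
  funext j
  fin_cases j <;> simp

theorem li_swap (d1 d2 e : E) (h : LinearIndependent ℝ ![d1, d2, e]) :
    LinearIndependent ℝ ![d2, d1, e] := by
  have h2 := h.comp (![1, 0, 2] : Fin 3 → Fin 3) (by decide)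
  convert h2 using 1
  funext j
  fin_cases j <;> rfl

theorem li_up (d1 d2 e : E) (h : LinearIndependent ℝ ![d1, d2, e]) :
    LinearIndependent ℝ ![d1, d2, -e] := by
  have h2 := h.units_smul ![1, 1, -1]
  convert h2 using 1
  funext j
  fin_cases j <;> simp

/-- the four bottom corner points -/
theorem bottoms (o d1 d2 e : E) (s t : ℝ) (h : LinearIndependent ℝ ![d1, d2, e])
    (hs : 0 < s) (hs1 : s < 1) (ht : 0 < t) (ht1 : t < 1) :
    (o + (2 * s / 3) • d1 + ((2 * t - 1) / 6) • d2 + (1 / 6 : ℝ) • e ∈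
      kernel (PP o d1 d2 e s t)) ∧
    (o - (2 * (1 - s) / 3) • d1 + ((2 * t - 1) / 6) • d2 + (1 / 6 : ℝ) • e ∈
      kernel (PP o d1 d2 e s t)) ∧
    (o + ((2 * s - 1) / 6) • d1 + (2 * t / 3) • d2 + (1 / 6 : ℝ) • e ∈
      kernel (PP o d1 d2 e s t)) ∧
    (o + ((2 * s - 1) / 6) • d1 - (2 * (1 - t) / 3) • d2 + (1 / 6 : ℝ) • e ∈
      kernel (PP o d1 d2 e s t)) := by
  have F : ∀ (o d1 d2 : E) (s t : ℝ), PP o (-d1) d2 e (1 - s) t = PP o d1 d2 e s t := by
    intro o d1 d2 s t; unfold PP; rw [V8_flip1]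
  have S : ∀ (o d1 d2 : E) (s t : ℝ), PP o d2 d1 e t s = PP o d1 d2 e s t := by
    intro o d1 d2 s t; unfold PP; rw [V8_swap]
  refine ⟨corner0 o d1 d2 e s t h hs hs1 ht ht1, ?_, ?_, ?_⟩
  · have := corner0 o (-d1) d2 e (1 - s) t (li_flip1 _ _ _ h) (by linarith) (by linarith) ht ht1
    rw [F] at this
    convert this using 1
    module
  · have := corner0 o d2 d1 e t s (li_swap _ _ _ h) ht ht1 hs hs1
    rw [S] at this
    convert this using 1
    module
  · have := corner0 o (-d2) d1 e (1 - t) s (li_flip1 _ _ _ (li_swap _ _ _ h)) (by linarith)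
      (by linarith) hs hs1
    rw [F, S] at this
    convert this using 1
    module

theorem PP_up (o d1 d2 e : E) (s t : ℝ) : PP (o + e) d1 d2 (-e) s t = PP o d1 d2 e s t := by
  unfold PP; rw [V8_up]

theorem tops (o d1 d2 e : E) (s t : ℝ) (h : LinearIndependent ℝ ![d1, d2, e])
    (hs : 0 < s) (hs1 : s < 1) (ht : 0 < t) (ht1 : t < 1) :
    (o + (2 * s / 3) • d1 + ((2 * t - 1) / 6) • d2 + (5 / 6 : ℝ) • e ∈
      kernel (PP o d1 d2 e s t)) ∧
    (o - (2 * (1 - s) / 3) • d1 + ((2 * t - 1) / 6) • d2 + (5 / 6 : ℝ) • e ∈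
      kernel (PP o d1 d2 e s t)) ∧
    (o + ((2 * s - 1) / 6) • d1 + (2 * t / 3) • d2 + (5 / 6 : ℝ) • e ∈
      kernel (PP o d1 d2 e s t)) ∧
    (o + ((2 * s - 1) / 6) • d1 - (2 * (1 - t) / 3) • d2 + (5 / 6 : ℝ) • e ∈
      kernel (PP o d1 d2 e s t)) := by
  obtain ⟨h1, h2, h3, h4⟩ := bottoms (o + e) d1 d2 (-e) s t (li_up _ _ _ h) hs hs1 ht ht1
  rw [PP_up] at h1 h2 h3 h4
  refine ⟨?_, ?_, ?_, ?_⟩
  · convert h1 using 1; module
  · convert h2 using 1; module
  · convert h3 using 1; module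
  · convert h4 using 1; module

theorem gbot (o d1 d2 e : E) (s t : ℝ) (h : LinearIndependent ℝ ![d1, d2, e])
    (hs : 0 < s) (hs1 : s < 1) (ht : 0 < t) (ht1 : t < 1) :
    o + ((2 * s - 1) / 4) • d1 + ((2 * t - 1) / 4) • d2 ∈ kernel (PP o d1 d2 e s t) := by
  refine mem_kernel_of_face _ _ (PP_poly _ _ _ _ _ _) 0 (qp_bottom o d1 d2 e s t h)
    (convex_convexHull ℝ _) _ ?_
  intro k
  have hx : (1 - s) • (bp o d1 d2 s t 0) + s • (bp o d1 d2 s t 2) =
      (1 - t) • (bp o d1 d2 s t 1) + t • (bp o d1 d2 s t 3) := by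
    simp only [bp, Matrix.cons_val_zero, Matrix.cons_val_one, Matrix.cons_val]
    module
  have hli : LinearIndependent ℝ ![bp o d1 d2 s t 2 - bp o d1 d2 s t 0,
      bp o d1 d2 s t 3 - bp o d1 d2 s t 1] := by
    have h2 := (h.units_smul ![-1, -1, 1]).comp (![0, 1] : Fin 2 → Fin 3) (by decide)
    convert h2 using 1
    funext j
    fin_cases j
    · simp [bp]; module
    · simp [bp]; module
  have h3 := quad_center _ _ _ _ s t hs hs1 ht ht1 hx hli k
  convert h3 using 1
  simp only [bp, Matrix.cons_val_zero, Matrix.cons_val_one, Matrix.cons_val]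
  module

theorem gtop (o d1 d2 e : E) (s t : ℝ) (h : LinearIndependent ℝ ![d1, d2, e])
    (hs : 0 < s) (hs1 : s < 1) (ht : 0 < t) (ht1 : t < 1) :
    o + ((2 * s - 1) / 4) • d1 + ((2 * t - 1) / 4) • d2 + e ∈ kernel (PP o d1 d2 e s t) := by
  have := gbot (o + e) d1 d2 (-e) s t (li_up _ _ _ h) hs hs1 ht ht1
  rw [PP_up] at this
  convert this using 1
  module

/-- a prism with the given eight vertices in a convex set is in that set -/
theorem PP_sub (o d1 d2 e : E) (s t : ℝ) (C : Set E) (hC : Convex ℝ C)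
    (h : ∀ (i : Fin 4) (b : Bool), bp o d1 d2 s t i + (if b then (1 : ℝ) else 0) • e ∈ C) :
    PP o d1 d2 e s t ⊆ C := by
  refine convexHull_min ?_ hC
  intro x hx
  simp only [V8, Finset.coe_image, Finset.coe_univ, image_univ, mem_range] at hx
  obtain ⟨⟨i, b⟩, rfl⟩ := hx
  exact h i b

/-- bounds of a linear functional with `l d1 = l d2 = 0` on a prism -/
theorem PP_bound (o d1 d2 e : E) (s t : ℝ) (l : E →ₗ[ℝ] ℝ) (h1 : l d1 = 0) (h2 : l d2 = 0)
    (h3 : 0 ≤ l e) (x : E) (hx : x ∈ PP o d1 d2 e s t) : l o ≤ l x ∧ l x ≤ l o + l e := by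
  have : PP o d1 d2 e s t ⊆ l ⁻¹' (Icc (l o) (l o + l e)) := by
    refine PP_sub o d1 d2 e s t _ ((convex_Icc _ _).is_linear_preimage l.isLinear) ?_
    intro i b
    rw [mem_preimage]
    have hb : l (bp o d1 d2 s t i) = l o := by
      fin_cases i <;> simp [bp, h1, h2]
    rw [map_add, hb, map_smul]
    cases b <;> simp [h3]
  exact this hx

theorem PP_meas (o d1 d2 e : E) (s t : ℝ) : MeasurableSet (PP o d1 d2 e s t) :=
  (Set.Finite.isCompact_convexHull (𝕜 := ℝ) (Finset.finite_toSet _)).measurableSet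

theorem li_scale (d1 d2 e : E) (h : LinearIndependent ℝ ![d1, d2, e]) (a b c : ℝ) (ha : 0 < a)
    (hb : 0 < b) (hc : 0 < c) : LinearIndependent ℝ ![a • d1, b • d2, c • e] := by
  have h2 := h.units_smul ![Units.mk0 a ha.ne', Units.mk0 b hb.ne', Units.mk0 c hc.ne']
  convert h2 using 1
  funext j
  fin_cases j <;> rfl

theorem PP_scale (o o' d1 d2 e : E) (s t s' t' : ℝ) (h : LinearIndependent ℝ ![d1, d2, e])
    (hs : 0 ≤ s) (hs1 : s ≤ 1) (ht : 0 ≤ t) (ht1 : t ≤ 1)
    (hs' : 0 ≤ s') (hs1' : s' ≤ 1) (ht' : 0 ≤ t') (ht1' : t' ≤ 1)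
    (a b c : ℝ) (ha : 0 < a) (hb : 0 < b) (hc : 0 < c) :
    volume (PP o' (a • d1) (b • d2) (c • e) s' t') =
      ENNReal.ofReal (a * b * c) * volume (PP o d1 d2 e s t) := by
  have h1 := qp_volume o d1 d2 e s t h hs hs1 ht ht1
  have h2 := qp_volume o' (a • d1) (b • d2) (c • e) s' t' (li_scale _ _ _ h a b c ha hb hc)
    hs' hs1' ht' ht1'
  rw [box_scale o o' d1 d2 e a b c ha hb hc h, ← h1, ← mul_assoc, mul_comm (ENNReal.ofReal _) 2,
    mul_assoc] at h2
  exact (ENNReal.mul_right_inj (by norm_num) (by norm_num)).1 h2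

theorem comb2 (C : Set E) (hC : Convex ℝ C) (x y : E) (hx : x ∈ C) (hy : y ∈ C) (a b : ℝ)
    (ha : 0 ≤ a) (hb : 0 ≤ b) (hab : a + b = 1) : a • x + b • y ∈ C := hC hx hy ha hb hab

theorem exists_l (d1 d2 e : E) (h : LinearIndependent ℝ ![d1, d2, e]) :
    ∃ l : E →ₗ[ℝ] ℝ, l d1 = 0 ∧ l d2 = 0 ∧ l e = 1 := by
  let b := basisOfLinearIndependentOfCardEqFinrank h (by simp)
  have hb : ∀ i, b i = ![d1, d2, e] i := fun i => by
    simp [b, coe_basisOfLinearIndependentOfCardEqFinrank]
  refine ⟨b.coord 2, ?_, ?_, ?_⟩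
  · have : b.coord 2 (b 0) = 0 := by
      simp [Module.Basis.coord_apply, Module.Basis.repr_self, Finsupp.single_apply]
    rw [hb 0] at this
    simpa using this
  · have : b.coord 2 (b 1) = 0 := by
      simp [Module.Basis.coord_apply, Module.Basis.repr_self, Finsupp.single_apply]
    rw [hb 1] at this
    simpa using this
  · have : b.coord 2 (b 2) = 1 := by
      simp [Module.Basis.coord_apply, Module.Basis.repr_self, Finsupp.single_apply]
    rw [hb 2] at this
    simpa using this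

theorem PP_low (o d1 d2 e : E) (s t : ℝ) (h : LinearIndependent ℝ ![d1, d2, e])
    (hs : 0 < s) (hs1 : s < 1) (ht : 0 < t) (ht1 : t < 1) :
    ENNReal.ofReal (8 / 27) * volume (PP o d1 d2 e s t) +
      ENNReal.ofReal (8 / 729) * volume (PP o d1 d2 e s t) +
      ENNReal.ofReal (8 / 729) * volume (PP o d1 d2 e s t) ≤
      volume (kernel (PP o d1 d2 e s t)) := by
  obtain ⟨l, l1, l2, l3⟩ := exists_l d1 d2 e h
  have hl : l ≠ 0 := by
    rintro rfl
    simp at l3
  set C := kernel (PP o d1 d2 e s t) with hCdef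
  have hC : Convex ℝ C := kernel_convex _ (PP_poly _ _ _ _ _ _)
  obtain ⟨B0, B2, B1, B3⟩ := bottoms o d1 d2 e s t h hs hs1 ht ht1
  obtain ⟨T0, T2, T1, T3⟩ := tops o d1 d2 e s t h hs hs1 ht ht1
  have G0 := gbot o d1 d2 e s t h hs hs1 ht ht1
  have G1 := gtop o d1 d2 e s t h hs hs1 ht ht1
  rw [← hCdef] at B0 B1 B2 B3 T0 T1 T2 T3 G0 G1
  have G5 := comb2 C hC _ _ G0 G1 (1 / 6) (5 / 6) (by norm_num) (by norm_num) (by norm_num)
  have G6 := comb2 C hC _ _ G0 G1 (5 / 6) (1 / 6) (by norm_num) (by norm_num) (by norm_num)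
  have cc : ∀ x y : E, x ∈ C → y ∈ C → (2 / 3 : ℝ) • x + (1 / 3 : ℝ) • y ∈ C :=
    fun x y hx hy => comb2 C hC x y hx hy _ _ (by norm_num) (by norm_num) (by norm_num)
  set s' : ℝ := (2 * s + 1) / 4 with hs'
  set t' : ℝ := (2 * t + 1) / 4 with ht'
  set o1 : E := o + ((2 * s - 1) / 6) • d1 + ((2 * t - 1) / 6) • d2 + (1 / 6 : ℝ) • e with ho1
  set o2 : E := o + (7 * (2 * s - 1) / 36) • d1 + (7 * (2 * t - 1) / 36) • d2 +
    (5 / 6 : ℝ) • e with ho2
  set o3 : E := o + (7 * (2 * s - 1) / 36) • d1 + (7 * (2 * t - 1) / 36) • d2 +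
    (1 / 9 : ℝ) • e with ho3
  have P1 : PP o1 ((2 / 3 : ℝ) • d1) ((2 / 3 : ℝ) • d2) ((2 / 3 : ℝ) • e) s' t' ⊆ C := by
    refine PP_sub _ _ _ _ _ _ _ hC ?_
    intro i b
    fin_cases i <;> cases b
    · convert B0 using 1; simp [bp, ho1, hs', ht']; module
    · convert T0 using 1; simp [bp, ho1, hs', ht']; module
    · convert B1 using 1; simp [bp, ho1, hs', ht']; module
    · convert T1 using 1; simp [bp, ho1, hs', ht']; module
    · convert B2 using 1; simp [bp, ho1, hs', ht']; module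
    · convert T2 using 1; simp [bp, ho1, hs', ht']; module
    · convert B3 using 1; simp [bp, ho1, hs', ht']; module
    · convert T3 using 1; simp [bp, ho1, hs', ht']; module
  have P2 : PP o2 ((4 / 9 : ℝ) • d1) ((4 / 9 : ℝ) • d2) ((1 / 18 : ℝ) • e) s' t' ⊆ C := by
    refine PP_sub _ _ _ _ _ _ _ hC ?_
    intro i b
    fin_cases i <;> cases b
    · convert cc _ _ T0 G5 using 1; simp [bp, ho2, hs', ht']; module
    · convert cc _ _ T0 G1 using 1; simp [bp, ho2, hs', ht']; module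
    · convert cc _ _ T1 G5 using 1; simp [bp, ho2, hs', ht']; module
    · convert cc _ _ T1 G1 using 1; simp [bp, ho2, hs', ht']; module
    · convert cc _ _ T2 G5 using 1; simp [bp, ho2, hs', ht']; module
    · convert cc _ _ T2 G1 using 1; simp [bp, ho2, hs', ht']; module
    · convert cc _ _ T3 G5 using 1; simp [bp, ho2, hs', ht']; module
    · convert cc _ _ T3 G1 using 1; simp [bp, ho2, hs', ht']; module
  have P3 : PP o3 ((4 / 9 : ℝ) • d1) ((4 / 9 : ℝ) • d2) ((1 / 18 : ℝ) • e) s' t' ⊆ C := by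
    refine PP_sub _ _ _ _ _ _ _ hC ?_
    intro i b
    fin_cases i <;> cases b
    · convert cc _ _ B0 G0 using 1; simp [bp, ho3, hs', ht']; module
    · convert cc _ _ B0 G6 using 1; simp [bp, ho3, hs', ht']; module
    · convert cc _ _ B1 G0 using 1; simp [bp, ho3, hs', ht']; module
    · convert cc _ _ B1 G6 using 1; simp [bp, ho3, hs', ht']; module
    · convert cc _ _ B2 G0 using 1; simp [bp, ho3, hs', ht']; module
    · convert cc _ _ B2 G6 using 1; simp [bp, ho3, hs', ht']; module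
    · convert cc _ _ B3 G0 using 1; simp [bp, ho3, hs', ht']; module
    · convert cc _ _ B3 G6 using 1; simp [bp, ho3, hs', ht']; module
  have v1 := PP_scale o o1 d1 d2 e s t s' t' h hs.le hs1.le ht.le ht1.le
    (by rw [hs']; linarith) (by rw [hs']; linarith) (by rw [ht']; linarith)
    (by rw [ht']; linarith) (2 / 3) (2 / 3) (2 / 3) (by norm_num) (by norm_num) (by norm_num)
  have v2 := PP_scale o o2 d1 d2 e s t s' t' h hs.le hs1.le ht.le ht1.le
    (by rw [hs']; linarith) (by rw [hs']; linarith) (by rw [ht']; linarith)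
    (by rw [ht']; linarith) (4 / 9) (4 / 9) (1 / 18) (by norm_num) (by norm_num) (by norm_num)
  have v3 := PP_scale o o3 d1 d2 e s t s' t' h hs.le hs1.le ht.le ht1.le
    (by rw [hs']; linarith) (by rw [hs']; linarith) (by rw [ht']; linarith)
    (by rw [ht']; linarith) (4 / 9) (4 / 9) (1 / 18) (by norm_num) (by norm_num) (by norm_num)
  have key := slab_add l hl (l o + 1 / 6) (l o + 5 / 6) (by linarith) _ _ _ C
    (PP_meas o1 ((2 / 3 : ℝ) • d1) ((2 / 3 : ℝ) • d2) ((2 / 3 : ℝ) • e) s' t')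
    (PP_meas o2 ((4 / 9 : ℝ) • d1) ((4 / 9 : ℝ) • d2) ((1 / 18 : ℝ) • e) s' t')
    (PP_meas o3 ((4 / 9 : ℝ) • d1) ((4 / 9 : ℝ) • d2) ((1 / 18 : ℝ) • e) s' t') P1 P2 P3
    (by
      intro x hx
      have := PP_bound _ _ _ _ _ _ l (by simp [l1]) (by simp [l2])
        (by rw [map_smul, l3]; norm_num) x hx
      simp only [ho1, map_add, map_smul, l1, l2, l3, smul_eq_mul] at this
      constructor <;> linarith [this.1, this.2])
    (by
      intro x hx
      have := PP_bound _ _ _ _ _ _ l (by simp [l1]) (by simp [l2])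
        (by rw [map_smul, l3]; norm_num) x hx
      simp only [ho2, map_add, map_smul, l1, l2, l3, smul_eq_mul] at this
      linarith [this.1, this.2])
    (by
      intro x hx
      have := PP_bound _ _ _ _ _ _ l (by simp [l1]) (by simp [l2])
        (by rw [map_smul, l3]; norm_num) x hx
      simp only [ho3, map_add, map_smul, l1, l2, l3, smul_eq_mul] at this
      linarith [this.1, this.2])
  rw [v1, v2, v3] at key
  have e1 : (2 / 3 * (2 / 3) * (2 / 3) : ℝ) = 8 / 27 := by norm_num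
  have e2 : (4 / 9 * (4 / 9) * (1 / 18) : ℝ) = 8 / 729 := by norm_num
  rw [e1, e2] at key
  exact key

theorem PP_pos (o d1 d2 e : E) (s t : ℝ) (h : LinearIndependent ℝ ![d1, d2, e])
    (hs : 0 < s) (hs1 : s < 1) (ht : 0 < t) (ht1 : t < 1) : 0 < volume (PP o d1 d2 e s t) := by
  have h1 := qp_volume o d1 d2 e s t h hs.le hs1.le ht.le ht1.le
  have h2 : 0 < volume (box o ![d1, d2, e]) :=
    Measure.measure_pos_of_nonempty_interior _ (box_interior o _ h)
  rw [← h1] at h2
  by_contra hcon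
  have h3 : volume (PP o d1 d2 e s t) = 0 := by simpa using hcon
  unfold PP at h3
  rw [h3] at h2
  simp at h2

theorem PP_rho (o d1 d2 e : E) (s t : ℝ) (h : LinearIndependent ℝ ![d1, d2, e])
    (hs : 0 < s) (hs1 : s < 1) (ht : 0 < t) (ht1 : t < 1) :
    232 / 729 ≤ rho (PP o d1 d2 e s t) := by
  have h0 := PP_low o d1 d2 e s t h hs hs1 ht ht1
  have hpos := PP_pos o d1 d2 e s t h hs hs1 ht ht1
  have hfin : volume (PP o d1 d2 e s t) ≠ ⊤ :=
    (Set.Finite.isCompact_convexHull (𝕜 := ℝ) (Finset.finite_toSet _)).measure_lt_top.ne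
  have hfin2 : volume (kernel (PP o d1 d2 e s t)) ≠ ⊤ :=
    ne_top_of_le_ne_top hfin (measure_mono (iInter_subset _ 0))
  rw [← add_mul, ← add_mul, ← ENNReal.ofReal_add (by norm_num) (by norm_num),
    ← ENNReal.ofReal_add (by norm_num) (by norm_num)] at h0
  have h2 := ENNReal.toReal_mono hfin2 h0
  rw [ENNReal.toReal_mul, ENNReal.toReal_ofReal (by norm_num)] at h2
  unfold rho vol
  rw [le_div_iff₀ (ENNReal.toReal_pos hpos.ne' hfin)]
  norm_num at h2 ⊢
  exact h2

theorem tetra_rho (T : Set E) (hT : IsTetrahedron T) : rho T ≤ 5 / 16 := by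
  have hP := Tet.tetra_poly T hT
  have h2 := Tet.tetra_two T hT
  have hpos := Tet.vol_pos T hP
  have hfin : volume (next (next T)) ≠ ⊤ :=
    Tet.poly_ne_top _ (Tet.next_poly _ (Tet.next_poly T hP))
  have h3 : vol (kernel T) ≤ (volume (next (next T))).toReal :=
    ENNReal.toReal_mono hfin (measure_mono (iInter_subset _ 2))
  unfold rho
  have hpos' : 0 < vol T := hpos
  rw [div_le_iff₀ hpos']
  refine h3.trans ?_
  exact h2.le

/-- `P` is a prism over a convex quadrilateral `abcd` (the diagonals `ac` and `bd` cross at a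
point interior to both) with lateral edge vector `e` not parallel to its plane. -/
def IsQuadPrism (P : Set E) : Prop :=
  ∃ (a b c d e : E) (s t : ℝ), 0 < s ∧ s < 1 ∧ 0 < t ∧ t < 1 ∧
    (1 - s) • a + s • c = (1 - t) • b + t • d ∧ LinearIndependent ℝ ![c - a, d - b, e] ∧
    P = convexHull ℝ {a, b, c, d, a + e, b + e, c + e, d + e}

theorem quadPrism_eq (P : Set E) (hP : IsQuadPrism P) :
    ∃ (o d1 d2 e : E) (s t : ℝ), LinearIndependent ℝ ![d1, d2, e] ∧ 0 < s ∧ s < 1 ∧ 0 < t ∧
      t < 1 ∧ P = PP o d1 d2 e s t := by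
  obtain ⟨a, b, c, d, e, s, t, hs, hs1, ht, ht1, hx, hli, rfl⟩ := hP
  refine ⟨(1 - s) • a + s • c, a - c, b - d, e, s, t, ?_, hs, hs1, ht, ht1, ?_⟩
  · have h2 := hli.units_smul ![-1, -1, 1]
    convert h2 using 1
    funext j
    fin_cases j <;> simp
  · have q0 : bp ((1 - s) • a + s • c) (a - c) (b - d) s t 0 = a := by
      simp only [bp, Matrix.cons_val_zero]; module
    have q2 : bp ((1 - s) • a + s • c) (a - c) (b - d) s t 2 = c := by
      simp only [bp, Matrix.cons_val]; module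
    have q1 : bp ((1 - s) • a + s • c) (a - c) (b - d) s t 1 = b := by
      simp only [bp, Matrix.cons_val_one, Matrix.cons_val_zero, Matrix.cons_val]
      rw [hx]; module
    have q3 : bp ((1 - s) • a + s • c) (a - c) (b - d) s t 3 = d := by
      simp only [bp, Matrix.cons_val]
      rw [hx]; module
    unfold PP
    congr 1
    ext x
    simp only [V8, Finset.coe_image, Finset.coe_univ, image_univ, mem_range, Prod.exists,
      mem_insert_iff, mem_singleton_iff]
    constructor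
    · rintro (rfl | rfl | rfl | rfl | rfl | rfl | rfl | rfl)
      · exact ⟨0, false, by simp [q0]⟩
      · exact ⟨1, false, by simp [q1]⟩
      · exact ⟨2, false, by simp [q2]⟩
      · exact ⟨3, false, by simp [q3]⟩
      · exact ⟨0, true, by simp [q0]⟩
      · exact ⟨1, true, by simp [q1]⟩
      · exact ⟨2, true, by simp [q2]⟩
      · exact ⟨3, true, by simp [q3]⟩
    · rintro ⟨i, bb, rfl⟩
      fin_cases i <;> cases bb
      · left; simpa using q0
      · right; right; right; right; left; simpa using q0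
      · right; left; simpa using q1
      · right; right; right; right; right; left; simpa using q1
      · right; right; left; simpa using q2
      · right; right; right; right; right; right; left; simpa using q2
      · right; right; right; left; simpa using q3
      · right; right; right; right; right; right; right; simpa using q3

/-- **Main result.** -/
theorem result :
    (∀ T : Set E, IsTetrahedron T → rho T ≤ 5 / 16) ∧
    (∀ P : Set E, IsQuadPrism P → 232 / 729 ≤ rho P) ∧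
    (∀ P T : Set E, IsQuadPrism P → IsTetrahedron T → rho T < rho P) := by
  have A : ∀ P : Set E, IsQuadPrism P → 232 / 729 ≤ rho P := by
    intro P hP
    obtain ⟨o, d1, d2, e, s, t, h, hs, hs1, ht, ht1, rfl⟩ := quadPrism_eq P hP
    exact PP_rho o d1 d2 e s t h hs hs1 ht ht1
  refine ⟨tetra_rho, A, ?_⟩
  intro P T hP hT
  have h1 := tetra_rho T hT
  have h2 := A P hP
  linarith

end Pool.Agent.Results.MP_7fdcdd_gt.QuadPrisms
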